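import Pool.Agent.Helper21.MT10.Stmts
import Pool.Agent.Helper3.MT9.RED
import Mathlib.Algebra.Lie.Derivation.Killing
import Mathlib.LinearAlgebra.Eigenspace.Triangularizable

/-!
# DRV: skew matrices which normalise an irreducible Lie algebra of skew matrices are in it
-/

set_option autoImplicit false

namespace MT

namespace DRV3

attribute [local instance 100] LieRing.ofAssociativeRing

open LieAlgebra RED9

variable {K : Type} [Field K] {n : ℕ}

theorem skew_tr [CharZero K] {ψ A : Matrix (Fin n) (Fin n) K} (hψ : ψ.det ≠ 0)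
    (h : A.transpose * ψ + ψ * A = 0) : A.trace = 0 := by
  have hu : IsUnit ψ.det := isUnit_iff_ne_zero.mpr hψ
  have h1 : A.transpose * ψ = -(ψ * A) := eq_neg_of_add_eq_zero_left h
  have h2 : (A.transpose * ψ * ψ⁻¹).trace = A.trace := by
    rw [Matrix.mul_nonsing_inv_cancel_right _ _ hu, Matrix.trace_transpose]
  have h3 : (A.transpose * ψ * ψ⁻¹).trace = -A.trace := by
    rw [h1, Matrix.neg_mul, Matrix.trace_neg, Matrix.trace_mul_comm, ← Matrix.mul_assoc,
      Matrix.nonsing_inv_mul _ hu, Matrix.one_mul]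
  have h4 : A.trace = -A.trace := h2.symm.trans h3
  have h5 : (2 : K) * A.trace = 0 := by linear_combination h4
  exact (mul_eq_zero.mp h5).resolve_left two_ne_zero

/-- the derivation given by a matrix which normalises `a` -/
def dC (a : Submodule K (Matrix (Fin n) (Fin n) K)) (ha : Brk a) (C : Matrix (Fin n) (Fin n) K)
    (hC : ∀ A ∈ a, C * A - A * C ∈ a) : LieDerivation K (bL a ha) (bL a ha) where
  toFun x := ⟨C * (x : Matrix (Fin n) (Fin n) K) - (x : Matrix (Fin n) (Fin n) K) * C, by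
    obtain ⟨X, hX, A, hA, c, rfl⟩ := x
    refine ⟨?_, C * A - A * C, hC A hA, 0, ?_⟩
    · rw [Matrix.trace_sub, Matrix.trace_mul_comm, sub_self]
    · simp only [sub_mul, mul_sub, Matrix.smul_mul, Matrix.mul_smul, one_mul, mul_one, zero_smul]
      abel⟩
  map_add' x y := by
    apply Subtype.ext
    change C * (x.1 + y.1) - (x.1 + y.1) * C = (C * x.1 - x.1 * C) + (C * y.1 - y.1 * C)
    rw [mul_add, add_mul]
    abel
  map_smul' t x := by
    apply Subtype.ext
    change C * (t • x.1) - (t • x.1) * C = t • (C * x.1 - x.1 * C)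
    rw [Matrix.mul_smul, Matrix.smul_mul, smul_sub]
  leibniz' x y := by
    apply Subtype.ext
    change C * (⁅x, y⁆ : bL a ha).1 - (⁅x, y⁆ : bL a ha).1 * C =
      (x.1 * (C * y.1 - y.1 * C) - (C * y.1 - y.1 * C) * x.1) -
        (y.1 * (C * x.1 - x.1 * C) - (C * x.1 - x.1 * C) * y.1)
    rw [LieSubalgebra.coe_bracket, Ring.lie_def]
    noncomm_ring

theorem schur [IsAlgClosed K] (hn : 0 < n) {a : Submodule K (Matrix (Fin n) (Fin n) K)}
    (hi : LIrr a) {B : Matrix (Fin n) (Fin n) K} (hB : ∀ A ∈ a, B * A = A * B) :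
    ∃ t : K, B = t • 1 := by
  have : Nonempty (Fin n) := ⟨⟨0, hn⟩⟩
  obtain ⟨t, ht⟩ := Module.End.exists_eigenvalue (Matrix.toLin' B)
  refine ⟨t, ?_⟩
  have h := hi (Module.End.eigenspace (Matrix.toLin' B) t) ?_
  · rcases h with h | h
    · exact absurd h ht
    · apply Matrix.toLin'.injective
      apply LinearMap.ext
      intro v
      have hv : v ∈ Module.End.eigenspace (Matrix.toLin' B) t := by rw [h]; trivial
      rw [Module.End.mem_eigenspace_iff] at hv
      rw [hv]
      simp
  · intro A hA v hv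
    rw [Module.End.mem_eigenspace_iff, Matrix.toLin'_apply] at hv ⊢
    rw [Matrix.mulVec_mulVec, hB A hA, ← Matrix.mulVec_mulVec, hv, Matrix.mulVec_smul]

end DRV3

open RED9 DRV3

attribute [local instance 100] LieRing.ofAssociativeRing

theorem st_DRV : ST_DRV := by
  intro K _ _ _ n ψ a hψ ha hi hs C hC hN
  rcases Nat.eq_zero_or_pos n with rfl | hn
  · have : C = 0 := Subsingleton.elim _ _
    rw [this]
    exact a.zero_mem
  have : Nonempty (Fin n) := ⟨⟨0, hn⟩⟩
  have : LieModule.IsIrreducible K (bL a ha) (Fin n → K) := irr_bL hn ha hi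
  have : LieAlgebra.HasTrivialRadical K (bL a ha) := by
    refine LieAlgebra.hasTrivialRadical_of_isIrreducible_of_isFaithful K (bL a ha) (Fin n → K) ?_
    intro x
    have h1 : LieModule.toEnd K (bL a ha) (Fin n → K) x =
        Matrix.toLin' (x : Matrix (Fin n) (Fin n) K) := by
      ext v i
      rfl
    rw [h1, Matrix.trace_toLin'_eq]
    exact x.2.1
  obtain ⟨z, hz⟩ := LieDerivation.IsKilling.exists_eq_ad (dC a ha C hN)
  have key : ∀ A ∈ a, (z : Matrix (Fin n) (Fin n) K) * A - A * (z : Matrix (Fin n) (Fin n) K) =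
      C * A - A * C := by
    intro A hA
    have hA' : A ∈ bL a ha := ⟨skew_tr hψ (hs A hA), A, hA, 0, by simp⟩
    have h1 : (⁅z, (⟨A, hA'⟩ : bL a ha)⁆ : bL a ha) = dC a ha C hN ⟨A, hA'⟩ := by
      rw [← hz, LieDerivation.ad_apply_apply]
    have h2 := congrArg (fun x : bL a ha => x.1) h1
    change (⁅z, (⟨A, hA'⟩ : bL a ha)⁆ : bL a ha).1 = C * A - A * C at h2
    rw [LieSubalgebra.coe_bracket, Ring.lie_def] at h2
    exact h2
  obtain ⟨t, ht⟩ := schur hn hi (B := C - (z : Matrix (Fin n) (Fin n) K)) (by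
    intro A hA
    have := key A hA
    rw [sub_mul, mul_sub]
    rw [sub_eq_sub_iff_add_eq_add] at this ⊢
    rw [← this]
    abel)
  obtain ⟨Z, hZ, A, hA, c, rfl⟩ := z
  have hCA : C = A + (t - c) • (1 : Matrix (Fin n) (Fin n) K) := by
    have h2 : C - (A - c • (1 : Matrix (Fin n) (Fin n) K)) = t • 1 := ht
    rw [sub_smul, ← h2]
    abel
  have h3 : (2 * (t - c)) • ψ = 0 := by
    have h4 := hC
    rw [hCA, Matrix.transpose_add, Matrix.transpose_smul, Matrix.transpose_one, add_mul, mul_add,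
      Matrix.smul_mul, Matrix.mul_smul, one_mul, mul_one] at h4
    have h5 := hs A hA
    rw [two_mul, add_smul]
    calc (t - c) • ψ + (t - c) • ψ = (A.transpose * ψ + (t - c) • ψ + (ψ * A + (t - c) • ψ)) -
        (A.transpose * ψ + ψ * A) := by abel
      _ = 0 := by rw [h4, h5, sub_zero]
  have hψ0 : ψ ≠ 0 := by
    intro h0
    exact hψ (by rw [h0, Matrix.det_zero])
  have h6 : 2 * (t - c) = 0 := (smul_eq_zero.mp h3).resolve_right hψ0
  have h7 : t - c = 0 := (mul_eq_zero.mp h6).resolve_left two_ne_zero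
  rw [hCA, h7, zero_smul, add_zero]
  exact hA

end MT
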